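import Mathlib
import Pool.Agent.TH890.DV.C2

/-!
Squarefree differences `3 m^2 + 3 m + 1 = (m+1)^3 - m^3` of consecutive cubes: for every modulus `k`
each residue class of the number of prime factors contains at least `X / (log X)^(log 2 + ε)` of them.

The starting file `SquarefreeCubanResidues` of this problem has `X / (log X)^(2 log 2 + ε)`. The
equidistribution over pairs `(d, d')` proved there is used; the passage from pairs to integers with the
exponent `log 2 + ε` is new (`Pool/Agent/TH890/DV`).
-/

set_option autoImplicit false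

namespace Pool.Agent.Results.MP_22d6bb_nt.SquarefreeCubanLogTwo

open Finset Filter ArithmeticFunction

open scoped Classical in
/-- the number of the integers `0 ≤ m ≤ X`, `m ≡ u mod q`, for which `3 m^2 + 3 m + 1` is squarefree
and the number of its prime factors is congruent to `j` modulo `k` -/
noncomputable def count (q u k j X : ℕ) : ℕ :=
  ((range (X + 1)).filter (fun m : ℕ => m ≡ u [MOD q] ∧ Squarefree (3 * m ^ 2 + 3 * m + 1) ∧
    cardFactors (3 * m ^ 2 + 3 * m + 1) ≡ j [MOD k])).card

open scoped Classical in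
/-- the set of the positive integers `X` with `P X` has logarithmic density `0` -/
def LogNull (P : ℕ → Prop) : Prop :=
  Tendsto (fun Z : ℕ => (∑ X ∈ (Icc 1 Z).filter P, 1 / (X : ℝ)) / Real.log Z) atTop (nhds 0)

/-- Let `k, q ≥ 1` and `u ≥ 0` be such that `3 u^2 + 3 u + 1` is not divisible by the square of a
prime whose square divides `q`. For each `j`, every `ε > 0` and almost all `X`, at least
`X / (log X)^(log 2 + ε)` of the integers `0 ≤ m ≤ X`, `m ≡ u mod q`, have `3 m^2 + 3 m + 1`
squarefree with a number of prime factors congruent to `j` modulo `k`. -/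
theorem result (k q u : ℕ) (hk : 1 ≤ k) (hq : 1 ≤ q)
    (hu : ∀ l : ℕ, l.Prime → l ^ 2 ∣ q → ¬ l ^ 2 ∣ 3 * u ^ 2 + 3 * u + 1) (j : ℕ) (ε : ℝ)
    (hε : 0 < ε) :
    LogNull (fun X => (count q u k j X : ℝ) < X / Real.log X ^ (Real.log 2 + ε)) :=
  (Pool.Agent.TH890.DV.sqf9L (t := 1) (c := 1) (A := 3) (β := 1) (e := 1)
    ⟨by norm_num, by norm_num, le_rfl, by norm_num, Nat.prime_three.prime.squarefree,
      fun m => by
        have h : 3 * m ^ 2 + (2 * 1 + 1) * m + 1 = 3 * (m ^ 2 + m) + 1 := by ring
        rw [h]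
        simp⟩
    (by simp) hk hq u (fun m => 3 * m ^ 2 + 3 * m + 1) (fun m => rfl) hu).2.2.1 j ε hε

end Pool.Agent.Results.MP_22d6bb_nt.SquarefreeCubanLogTwo
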